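import Pool.Agent.Y133.Half.PredSys
import Pool.Agent.Y133.Half.HalfDefs

/-!
# The action of the Galois group of the ground field: definitions
-/

open CategoryTheory AlgebraicGeometry

universe u v

namespace Pool.Agent.K1H13.L

section Alg

variable {K : Type*} [Field K] {A : Type*} [Ring A] [Algebra K A] {B : Type*} [Ring B]
  [Algebra K B] {Γ : Type*} [Group Γ]

/-- The formal properties of the action `ρ` of the Galois group `Γ` of the ground field on the
cohomology algebra `A` of a variety of dimension `n` over this field: it respects the subspaces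
`gr i`, an element `g` multiplies the orientation `tr` by `χ g ^ n` and an element `c` of the set `C j`
(the classes of the cycles of codimension `j` over the ground field) by `χ g ^ j`; here `χ` is the
character which gives the action on the inverse of the Tate twist. -/
structure IsGalAct (χ : Γ →* Kˣ) (gr : ℕ → Submodule K A) (n : ℕ) (tr : A →ₗ[K] K)
    (C : ℕ → Set A) (ρ : Γ →* (A ≃ₐ[K] A)) : Prop where
  gr_mem : ∀ g i, ∀ a ∈ gr i, ρ g a ∈ gr i
  tr_act : ∀ g a, tr (ρ g a) = (χ g : K) ^ n * tr a
  cl_act : ∀ g j, ∀ c ∈ C j, ρ g c = (χ g : K) ^ j • c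

/-- The homomorphism `f` is equivariant for the actions `ρ` and `υ`. -/
def IsEquivariant (f : A →ₐ[K] B) (ρ : Γ →* (A ≃ₐ[K] A)) (υ : Γ →* (B ≃ₐ[K] B)) : Prop :=
  ∀ g a, υ g (f a) = f (ρ g a)

/-- The elements of `U` which are multiplied by `χ g ^ j` by all elements `g` of `Γ` (the elements
of the `j`-th Tate twist of `U` which are fixed by `Γ`). -/
def invariants (χ : Γ →* Kˣ) (ρ : Γ →* (A ≃ₐ[K] A)) (U : Submodule K A) (j : ℕ) :
    Submodule K A where
  carrier := {c | c ∈ U ∧ ∀ g, ρ g c = (χ g : K) ^ j • c}
  add_mem' := fun {a b} ha hb => ⟨U.add_mem ha.1 hb.1, fun g => by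
    rw [map_add, ha.2, hb.2, smul_add]⟩
  zero_mem' := ⟨U.zero_mem, fun g => by rw [map_zero, smul_zero]⟩
  smul_mem' := fun r {a} ha => ⟨U.smul_mem _ ha.1, fun g => by
    rw [map_smul, ha.2, smul_comm]⟩

end Alg

open Pool.Agent.H914 Pool.Agent.H914.VarClass Pool.Agent.H914.VarClass.Obj
  Pool.Agent.H914.WeilCohomology
open Pool.Agent.Y129 (pw genBy)
open Pool.Agent.Y133.Half (dimOf)

variable {k : Type u} [Field k] {𝒱 : VarClass k} {ops : CycleOps 𝒱}

/-- An action of the group `Γ` on the cohomology of all varieties of the class, with the formal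
properties of the action of the Galois group of the ground field `k`. -/
structure GaloisAction (W : WeilCohomology.{u, v} ops) (Γ : Type) [Group Γ] where
  /-- the action on the inverse of the Tate twist -/
  χ : Γ →* W.Kˣ
  /-- the action on the cohomology -/
  act : ∀ X : 𝒱.Obj, Γ →* (W.H X ≃ₐ[W.K] W.H X)
  galois : ∀ X, IsGalAct χ (W.gr X) X.dim (W.tr X) (algClasses W X) (act X)
  map : ∀ {X Y : 𝒱.Obj} (f : X ⟶ Y), IsEquivariant (W.map f) (act Y) (act X)

variable {W : WeilCohomology.{u, v} ops} {Γ : Type} [Group Γ]

/-- The Tate classes of codimension `j` on `X` over the ground field: the space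
`H^(2 j)(X)(j)^Γ`. -/
def tateClasses (G : GaloisAction W Γ) (X : 𝒱.Obj) (j : ℕ) : Submodule W.K (W.H X) :=
  invariants G.χ (G.act X) (W.gr X (2 * j)) j

/-- The dimension of the space of the Tate classes of all codimensions. -/
noncomputable def tateDim (G : GaloisAction W Γ) (X : 𝒱.Obj) : ℕ :=
  dimOf W {c | ∃ j, c ∈ tateClasses G X j}

/-- The rank of the group `A^j(X)` of the classes of the cycles of codimension `j` on `X`: the
dimension of the rational vector space spanned by these classes. -/
noncomputable def rankA (W : WeilCohomology.{u, v} ops) (X : 𝒱.Obj) (j : ℕ) : ℕ :=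
  letI : Module ℚ (W.H X) := Module.compHom (W.H X) (algebraMap ℚ W.K)
  Module.finrank ℚ (Submodule.span ℚ (algClasses W X j))

/-- The equality of the conjecture of Tate for `X` in codimension `j`: the rank of `A^j(X)` is
equal to the dimension of the space `H^(2 j)(X)(j)^Γ`. -/
def TateEquality (G : GaloisAction W Γ) (X : 𝒱.Obj) (j : ℕ) : Prop :=
  rankA W X j = Module.finrank W.K (tateClasses G X j)

/-- All Tate classes of all codimensions on `X` are linear combinations, over the coefficient field,
of classes of cycles (over the ground field). -/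
def TateAlgebraic (G : GaloisAction W Γ) (X : 𝒱.Obj) : Prop :=
  ∀ j, tateClasses G X j ≤ spanCycles W X j

/-- There are `r` Tate classes on powers of `X`, where `r + 1 ≤ N`, such that all Tate classes on all
powers of `X` are linear combinations of classes of algebraic cycles and of images of these `r`
classes under algebraic correspondences. -/
def TateGenerated (G : GaloisAction W Γ) (X : 𝒱.Obj) (N : ℕ∞) : Prop :=
  ∃ (r : ℕ) (c : Fin r → Σ m, W.H (pw X m)), (r : ℕ∞) + 1 ≤ N ∧
    (∀ i, ∃ j, (c i).2 ∈ tateClasses G (pw X (c i).1) j) ∧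
    ∀ n j z, z ∈ tateClasses G (pw X n) j → z ∈ genBy W X c n

end Pool.Agent.K1H13.L
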