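import Pool.Agent.K1H13.L.Defs
import Pool.Agent.W534.PoleA

/-!
# The index law for Tate classes over arbitrary ground fields
-/

open CategoryTheory AlgebraicGeometry Filter Topology

open scoped ENNReal

universe u v

namespace Pool.Agent.K1H13.L

open Module
open Pool.Agent.H914 Pool.Agent.H914.VarClass Pool.Agent.H914.VarClass.Obj
  Pool.Agent.H914.WeilCohomology Pool.Agent.H281R3.HT
open Pool.Agent.Y129 (pw genBy)
open Pool.Agent.Y133.Half (ClassPred cycRank dimOf AtMostHalf algDim)

variable {k : Type u} [Field k] {𝒱 : VarClass k} {ops : CycleOps 𝒱}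
  {W : WeilCohomology.{u, v} ops} {Γ : Type} [Group Γ] (G : GaloisAction W Γ) {X Y : 𝒱.Obj}

theorem act_inv (g : Γ) (c : W.H X) : G.act X g (G.act X g⁻¹ c) = c := by
  have h1 : G.act X g * G.act X g⁻¹ = 1 := by rw [← map_mul, mul_inv_cancel, map_one]
  exact congrArg (fun F : W.H X ≃ₐ[W.K] W.H X => F c) h1

theorem push_act (f : X ⟶ Y) {j l : ℕ} (hl : l + X.dim = j + Y.dim) {a : W.H X} (g : Γ)
    (ha : G.act X g a = (G.χ g : W.K) ^ j • a) :
    G.act Y g (W.push f a) = (G.χ g : W.K) ^ l • W.push f a := by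
  have hχ : (G.χ g : W.K) ≠ 0 := (G.χ g).ne_zero
  rw [← sub_eq_zero]
  refine W.nondeg _ fun b => ?_
  rw [sub_mul, map_sub, sub_eq_zero]
  have h1 : G.act Y g (W.push f a) * b = G.act Y g (W.push f a * G.act Y g⁻¹ b) := by
    rw [map_mul, act_inv]
  have h2 : G.act X g (a * W.map f (G.act Y g⁻¹ b)) = (G.χ g : W.K) ^ j • (a * W.map f b) := by
    rw [map_mul, ha, G.map f, act_inv, smul_mul_assoc]
  have h3 := (G.galois X).tr_act g (a * W.map f (G.act Y g⁻¹ b))
  rw [h2, map_smul, smul_eq_mul] at h3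
  rw [h1, (G.galois Y).tr_act, W.tr_push, smul_mul_assoc, map_smul, W.tr_push, smul_eq_mul]
  have h4 : (G.χ g : W.K) ^ X.dim ≠ 0 := pow_ne_zero _ hχ
  apply mul_left_cancel₀ h4
  calc (G.χ g : W.K) ^ X.dim * ((G.χ g : W.K) ^ Y.dim * W.tr X (a * W.map f (G.act Y g⁻¹ b)))
      = (G.χ g : W.K) ^ Y.dim * ((G.χ g : W.K) ^ X.dim *
        W.tr X (a * W.map f (G.act Y g⁻¹ b))) := by ring
    _ = (G.χ g : W.K) ^ (j + Y.dim) * W.tr X (a * W.map f b) := by rw [← h3]; ring
    _ = _ := by rw [← hl]; ring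

/-- The Tate classes. -/
noncomputable def tatePred : ClassPred W where
  P X j c := c ∈ tateClasses G X j
  gr h := h.1
  zero := Submodule.zero_mem _
  add ha hb := Submodule.add_mem _ ha hb
  smul r _ ha := Submodule.smul_mem _ r ha
  cl {X j z} hz := ⟨W.cl_mem hz, fun g => (G.galois X).cl_act g j _ ⟨z, hz, rfl⟩⟩
  mul {X i j a b} ha hb := by
    refine ⟨?_, fun g => ?_⟩
    · have := W.mul_mem ha.1 hb.1
      rwa [show 2 * i + 2 * j = 2 * (i + j) by ring] at this
    · rw [map_mul, ha.2, hb.2, smul_mul_smul_comm, pow_add]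
  map {X Y} f j a ha := ⟨W.map_mem f ha.1, fun g => by rw [G.map f, ha.2, map_smul]⟩
  push {X Y} f j l hl a ha := by
    refine ⟨?_, fun g => push_act G f hl g (ha.2 g)⟩
    have h2 := W.push_mem f ha.1
    have e1 : ((2 * j : ℕ) : ℤ) + 2 * ((Y.dim : ℤ) - X.dim) = ((2 * l : ℕ) : ℤ) := by
      push_cast; omega
    rw [e1, grZ_natCast] at h2
    exact h2

/-- If homological and numerical equivalence agree, the dimension of the space spanned by the
classes of cycles is the rank of the cycles modulo numerical equivalence. -/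
theorem finrank_span_eq (h : HomEqNum W X) {j : ℕ} (hj : j ≤ X.dim) :
    finrank W.K (spanCycles W X j) = Pool.Agent.W534.numRank ops X j := by
  rw [Pool.Agent.W534.numRank_eq (W := W) hj, Pool.Agent.W534.kRank]
  refine (LinearMap.finrank_range_of_inj (f := Pool.Agent.W534.pair W X j (X.dim - j)) ?_).symm
  rw [injective_iff_map_eq_zero]
  intro a ha
  apply Subtype.ext
  refine Pool.Agent.Y129.homEqNum_algSpan h (Pool.Agent.Y129.span_le_algSpan j a.2) ?_
  rw [Pool.Agent.Y129.mem_transcendental]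
  intro d hd
  refine Pool.Agent.W536.RR.algSpan_induction
    (p := fun d => W.tr X (d * (a : W.H X)) = 0) ?_ ?_ ?_ ?_ hd
  · rw [zero_mul, map_zero]
  · intro b c hb hc
    rw [add_mul, map_add, hb, hc, add_zero]
  · intro t b hb
    rw [smul_mul_assoc, map_smul, hb, smul_zero]
  · intro l z hz
    rw [W.even_comm (W.cl_mem hz)]
    by_cases hl : l = X.dim - j
    · subst hl
      have h1 := LinearMap.congr_fun ha ⟨_, Submodule.subset_span ⟨_, rfl, z, hz, rfl⟩⟩
      exact h1
    · refine W.tr_eq_zero (W.mul_mem (span_gr a.2) (W.cl_mem hz)) ?_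
      intro h2
      apply hl
      omega

/-- The cycles of codimension `j`. -/
def cyc (X : 𝒱.Obj) (j : ℕ) : Submodule ℚ X.Cycles where
  carrier := {z | X.IsCyc j z}
  add_mem' := fun ha hb => SmVar.IsCyc.add ha hb
  zero_mem' := SmVar.IsCyc.zero _ _
  smul_mem' := fun q _ hz => SmVar.IsCyc.smul q hz

theorem rankA_eq (h : HomEqNum W X) {j : ℕ} (hj : j ≤ X.dim) :
    rankA W X j = Pool.Agent.W534.numRank ops X j := by
  let _ : Module ℚ (W.H X) := Module.compHom (W.H X) (algebraMap ℚ W.K)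
  let f : cyc X j →ₗ[ℚ] W.H X :=
    ((W.cl X).comp (cyc X j).subtype.toAddMonoidHom).toRatLinearMap
  have hf : ∀ z : cyc X j, f z = W.cl X (z : X.Cycles) := fun _ => rfl
  have hval : ∀ (z : cyc X j) (w : {w : X.Cycles // X.IsCyc (X.dim - j) w}),
      (Pool.Agent.W534.interNumbers ops X j ⟨z, z.2⟩ w : W.K) =
        W.tr X (f z * W.cl X (w : X.Cycles)) := by
    intro z w
    rw [hf]
    exact (Pool.Agent.W534.tr_mul_cl' z.2 w.2 (by omega)).symm
  let i : cyc X j →ₗ[ℚ] ({w : X.Cycles // X.IsCyc (X.dim - j) w} → ℚ) :=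
    { toFun := fun z => Pool.Agent.W534.interNumbers ops X j ⟨z, z.2⟩
      map_add' := fun z z' => by
        funext w
        have h1 := hval (z + z') w
        rw [map_add, add_mul, map_add, ← hval, ← hval] at h1
        exact_mod_cast h1
      map_smul' := fun q z => by
        funext w
        have h1 := hval (q • z) w
        have h2 : f (q • z) = (algebraMap ℚ W.K q) • f z := map_smul f q z
        rw [h2, smul_mul_assoc, map_smul, ← hval, smul_eq_mul] at h1
        have h3 : ((Pool.Agent.W534.interNumbers ops X j ⟨_, (q • z).2⟩ w : ℚ) : W.K) =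
            ((q * Pool.Agent.W534.interNumbers ops X j ⟨z, z.2⟩ w : ℚ) : W.K) := by
          rw [h1, Rat.cast_mul]
          rfl
        exact_mod_cast h3 }
  have hker : LinearMap.ker f = LinearMap.ker i := by
    ext z
    rw [LinearMap.mem_ker, LinearMap.mem_ker]
    constructor
    · intro hz
      funext w
      have h1 := hval z w
      rw [hz, zero_mul, map_zero] at h1
      exact_mod_cast h1
    · intro hz
      rw [hf]
      refine h j hj z z.2 fun w hw => ?_
      exact congrFun hz ⟨w, hw⟩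
  have e : LinearMap.range f ≃ₗ[ℚ] LinearMap.range i :=
    (f.quotKerEquivRange.symm.trans (Submodule.quotEquivOfEq _ _ hker)).trans i.quotKerEquivRange
  have h1 : Submodule.span ℚ (algClasses W X j) = LinearMap.range f := by
    apply le_antisymm
    · rw [Submodule.span_le]
      rintro _ ⟨z, hz, rfl⟩
      exact ⟨⟨z, hz⟩, rfl⟩
    · rintro _ ⟨z, rfl⟩
      exact Submodule.subset_span ⟨z, z.2, rfl⟩
  have h2 : Submodule.span ℚ (Set.range (Pool.Agent.W534.interNumbers ops X j)) =
      LinearMap.range i := by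
    apply le_antisymm
    · rw [Submodule.span_le]
      rintro _ ⟨z, rfl⟩
      exact ⟨⟨z.1, z.2⟩, rfl⟩
    · rintro _ ⟨z, rfl⟩
      exact Submodule.subset_span ⟨⟨z, z.2⟩, rfl⟩
  have h3 : rankA W X j = Module.finrank ℚ (Submodule.span ℚ (algClasses W X j)) := rfl
  rw [h3, h1, Pool.Agent.W534.numRank, h2]
  exact e.finrank_eq

theorem rankA_gt {j : ℕ} (hj : X.dim < j) : rankA W X j = 0 := by
  let _ : Module ℚ (W.H X) := Module.compHom (W.H X) (algebraMap ℚ W.K)
  have h1 : Submodule.span ℚ (algClasses W X j) = ⊥ := by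
    rw [Submodule.span_eq_bot]
    rintro _ ⟨z, hz, rfl⟩
    have h2 := W.cl_mem hz
    rwa [W.gr_eq_bot X _ (by omega), Submodule.mem_bot] at h2
  have h3 : rankA W X j = Module.finrank ℚ (Submodule.span ℚ (algClasses W X j)) := rfl
  rw [h3, h1, finrank_bot]

/-- If the Tate classes are algebraic and homological and numerical equivalence agree, the rank
of the group of the classes of cycles is the dimension of the space of Tate classes. -/
theorem equality (h : HomEqNum W X) (hT : TateAlgebraic G X) (j : ℕ) : TateEquality G X j := by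
  have hle : spanCycles W X j ≤ tateClasses G X j := by
    intro c hc
    exact (tatePred G).span_le hc
  have h1 : spanCycles W X j = tateClasses G X j := le_antisymm hle (hT j)
  rw [TateEquality, ← h1]
  rcases le_or_gt j X.dim with hj | hj
  · rw [rankA_eq h hj, finrank_span_eq h hj]
  · rw [rankA_gt hj, h1]
    have h2 : tateClasses G X j = ⊥ := by
      rw [eq_bot_iff]
      intro c hc
      have h3 := hc.1
      rwa [W.gr_eq_bot X _ (by omega)] at h3
    rw [h2, finrank_bot]

theorem index_law (X : 𝒱.Obj) [Nontrivial (W.H X)] : ∃ N : ℕ∞, 1 ≤ N ∧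
      Tendsto (fun n => (tateDim G (pw X n) : ℝ≥0∞) / cycRank ops (pw X n)) atTop
        (𝓝 (N : ℝ≥0∞)) ∧
      (∀ n, (tateDim G (pw X (2 * n + 1)) : ℝ≥0∞) / cycRank ops (pw X (2 * n + 1)) ≤
        (N : ℝ≥0∞)) ∧
      (N = 1 ↔ ∀ n, TateAlgebraic G (pw X n) ∧ HomEqNum W (pw X n)) ∧
      (N = 1 → ∀ n j, TateEquality G (pw X n) j) ∧
      (N ≠ ⊤ → (∀ n, HomEqNum W (pw X n)) ∧ TateGenerated G X N) := by
  obtain ⟨N, h1, h2, h3, h4, h5⟩ := (tatePred G).index X
  refine ⟨N, h1, h2, h3, h4, fun h n j => ?_, h5⟩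
  have h6 := h4.1 h n
  exact equality G h6.2 (fun j c hc => h6.1 j c hc) j

end Pool.Agent.K1H13.L
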